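import Pool.Agent.Helper89.TT.Final

set_option autoImplicit false

namespace Pool.Agent.Results.MP_b54077_nt.PairCount

/-- Let `m, n ≥ 2`. Count the pairs `(A, B)` of finite sets of integers in `[1, X]` with
`|A| = m`, `|B| = n` such that all the sums `a² + b²` are squares (for `m = n = 2`: only those in
which the two products differ). The number of those with greatest common divisor `1` is at most
`C X ^ (1 - 1 / (192000 (m + n)))`, and the number of all of them is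
`c X + O (X ^ (1 - 1 / (192000 (m + n))))`, with `c > 0` exactly if there is such a pair. -/
theorem result (m n : ℕ) (hm : 2 ≤ m) (hn : 2 ≤ n) :
    ∃ c C : ℝ, 0 ≤ c ∧
      (0 < c ↔ ∃ A B : Finset ℕ, A.card = m ∧ B.card = n ∧ (∀ a ∈ A, 0 < a) ∧ (∀ b ∈ B, 0 < b) ∧
        (∀ a ∈ A, ∀ b ∈ B, IsSquare (a ^ 2 + b ^ 2)) ∧
        (m + n = 4 → ∏ a ∈ A, a ≠ ∏ b ∈ B, b)) ∧
      ∀ X : ℕ, 1 ≤ X →
        (((((Finset.Icc 1 X).powersetCard m ×ˢ (Finset.Icc 1 X).powersetCard n).filter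
            (fun P => (∀ a ∈ P.1, ∀ b ∈ P.2, IsSquare (a ^ 2 + b ^ 2)) ∧
              (m + n = 4 → ∏ a ∈ P.1, a ≠ ∏ b ∈ P.2, b))).filter
            (fun P => (P.1 ∪ P.2).gcd id = 1)).card : ℝ) ≤
          C * (X : ℝ) ^ (1 - 1 / (192000 * ((m : ℝ) + n))) ∧
        |((((Finset.Icc 1 X).powersetCard m ×ˢ (Finset.Icc 1 X).powersetCard n).filter
            (fun P => (∀ a ∈ P.1, ∀ b ∈ P.2, IsSquare (a ^ 2 + b ^ 2)) ∧
              (m + n = 4 → ∏ a ∈ P.1, a ≠ ∏ b ∈ P.2, b))).card : ℝ) - c * X| ≤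
          C * (X : ℝ) ^ (1 - 1 / (192000 * ((m : ℝ) + n))) := by
  obtain ⟨c, C, h1, h2, h3⟩ := Pool.Agent.Helper89.TT.final m n hm hn
  refine ⟨c, C, h1, ?_, h3⟩
  rw [h2]
  constructor
  · rintro ⟨X, P, hP⟩
    unfold Pool.Agent.Helper89.TT.Cmp at hP
    rw [Finset.mem_filter, Finset.mem_product, Finset.mem_powersetCard,
      Finset.mem_powersetCard] at hP
    obtain ⟨⟨h4, h5⟩, h6, h7⟩ := hP
    exact ⟨P.1, P.2, h4.2, h5.2, fun a ha => (Finset.mem_Icc.1 (h4.1 ha)).1,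
      fun b hb => (Finset.mem_Icc.1 (h5.1 hb)).1, h6, h7⟩
  · rintro ⟨A, B, hA, hB, hA0, hB0, hs, hp⟩
    refine ⟨(A ∪ B).sup id, (A, B), ?_⟩
    unfold Pool.Agent.Helper89.TT.Cmp
    rw [Finset.mem_filter, Finset.mem_product, Finset.mem_powersetCard,
      Finset.mem_powersetCard]
    refine ⟨⟨⟨?_, hA⟩, ?_, hB⟩, hs, hp⟩
    · intro x hx
      rw [Finset.mem_Icc]
      exact ⟨hA0 x hx, Finset.le_sup (f := id) (Finset.mem_union_left _ hx)⟩
    · intro x hx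
      rw [Finset.mem_Icc]
      exact ⟨hB0 x hx, Finset.le_sup (f := id) (Finset.mem_union_right _ hx)⟩

end Pool.Agent.Results.MP_b54077_nt.PairCount
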